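import Pool.Agent.Q218.WF.Dist

/-!
# Weighted first passage percolation: no rate `χ > 1`

If the rate `χ > 1` held with positive probability, then `T(0, n e₁) - D(0, n e₁) → 0` on an event
of positive probability.  But `T(0, n e₁)` is the minimum over the `2d` edges at the origin of
`X_e + R_e(n)`, where `R_e(n)` does not depend on the edges at the origin, so on this event
`X_e = - liminf (R_e(n) - D(0, n e₁))` for one of them, which has probability zero.
-/

set_option autoImplicit false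

open MeasureTheory ProbabilityTheory Filter Topology Set
open scoped ENNReal NNReal RealInnerProductSpace Pointwise

namespace Pool.Agent.Results.MP_d9d0cb_pr.RateAboveOne

open Pool.Agent.Q218.WF

/-- Vertices of `ℤ^d`. -/
abbrev V (d : ℕ) := Fin d → ℤ

/-- The `2d` unit steps `± e_i`. -/
def stp {d : ℕ} (σ : Fin d × Bool) : V d := if σ.2 then Pi.single σ.1 1 else -Pi.single σ.1 1

/-- Nearest-neighbour edges of `ℤ^d`, as unordered pairs. -/
def IsEdge {d : ℕ} (e : Sym2 (V d)) : Prop := ∃ x σ, e = s(x, x + stp σ)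

/-- The inclusion `ℤ^d → ℝ^d`. -/
noncomputable def toE {d : ℕ} (x : V d) : E d := WithLp.toLp 2 (fun i => (x i : ℝ))

/-- The midpoint of an edge. -/
noncomputable def mid {d : ℕ} : Sym2 (V d) → E d :=
  Sym2.lift ⟨fun x y => (1 / 2 : ℝ) • (toE x + toE y), fun _ _ => congrArg _ (add_comm _ _)⟩

/-- Passage time of the lattice path which starts at `x` and makes the given steps. -/
noncomputable def cost {d : ℕ} (τ : Sym2 (V d) → ℝ) : V d → List (Fin d × Bool) → ℝ≥0∞
  | _, [] => 0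
  | x, σ :: l => ENNReal.ofReal (τ s(x, x + stp σ)) + cost τ (x + stp σ) l

/-- End point of the lattice path which starts at `x` and makes the given steps. -/
def endpt {d : ℕ} : V d → List (Fin d × Bool) → V d
  | x, [] => x
  | x, σ :: l => endpt (x + stp σ) l

/-- The passage time `T(0,v)` in the environment `τ`. -/
noncomputable def T {d : ℕ} (τ : Sym2 (V d) → ℝ) (v : V d) : ℝ≥0∞ :=
  ⨅ (l : List (Fin d × Bool)) (_ : endpt 0 l = v), cost τ 0 l

/-- The fattened cluster `A^F_t = V_t + [-1/2,1/2]^d`, `V_t = {v : T(0,v) ≤ t}`. -/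
def cluster {d : ℕ} (τ : Sym2 (V d) → ℝ) (t : ℝ) : Set (E d) :=
  {z | ∃ v : V d, T τ v ≤ ENNReal.ofReal t ∧ ∀ i, |z i - v i| ≤ 1 / 2}

/-- The environment: independent exponential edge times, `X_e` of rate `f(m_e)`. -/
structure IsEnv {d : ℕ} {Ω : Type} [MeasurableSpace Ω] (P : Measure Ω) (f : E d → ℝ)
    (X : Sym2 (V d) → Ω → ℝ) : Prop where
  meas : ∀ e, Measurable (X e)
  indep : iIndepFun (fun e : {e : Sym2 (V d) // IsEdge e} => X e) P
  law : ∀ e, IsEdge e → P.map (X e) = expMeasure (f (mid e))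

/-- The event `E(χ,t₀)`, for the exponent `α` and the limit shape `𝔹`. -/
def Ev {d : ℕ} {Ω : Type} (X : Sym2 (V d) → Ω → ℝ) (α : ℝ) (𝔹 : Set (E d)) (χ t₀ : ℝ) : Set Ω :=
  {ω | ∀ t ≥ t₀,
    ((1 - t ^ (-χ)) * t ^ (1 / (1 - α))) • 𝔹 ⊆ cluster (fun e => X e ω) t ∧
    cluster (fun e => X e ω) t ⊆ ((1 + t ^ (-χ)) * t ^ (1 / (1 - α))) • 𝔹}

/-- Rate `χ` holds. -/
def RateHolds {d : ℕ} {Ω : Type} [MeasurableSpace Ω] (P : Measure Ω) (X : Sym2 (V d) → Ω → ℝ)
    (α : ℝ) (𝔹 : Set (E d)) (χ : ℝ) : Prop :=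
  ∀ s : ℝ, 0 < s → Tendsto (fun t₀ : ℝ => t₀ ^ s * (1 - P.real (Ev X α 𝔹 χ t₀))) atTop (𝓝 0)

/-! ### Deterministic part -/

section det

variable {d : ℕ}

/-- first basis vector of `ℤ^d` times `n` -/
def nv (hd : 0 < d) (n : ℕ) : V d := Pi.single ⟨0, hd⟩ (n : ℤ)

/-- first basis vector of `ℝ^d` -/
noncomputable def e1 (hd : 0 < d) : E d := EuclideanSpace.single ⟨0, hd⟩ 1

lemma cost_ne_top (τ : Sym2 (V d) → ℝ) : ∀ (l : List (Fin d × Bool)) (x : V d), cost τ x l ≠ ⊤
  | [], x => by simp [cost]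
  | σ :: l, x => by
    simp only [cost]
    exact ENNReal.add_ne_top.2 ⟨ENNReal.ofReal_ne_top, cost_ne_top τ l _⟩

lemma endpt_replicate (hd : 0 < d) : ∀ (n : ℕ) (x : V d),
    endpt x (List.replicate n (⟨0, hd⟩, true)) = x + nv hd n
  | 0, x => by simp [endpt, nv]
  | n + 1, x => by
    rw [List.replicate_succ]
    simp only [endpt]
    rw [endpt_replicate hd n]
    simp only [stp, nv, if_true]
    rw [add_assoc, ← Pi.single_add]
    push_cast
    rw [add_comm (1 : ℤ)]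

lemma T_ne_top (hd : 0 < d) (τ : Sym2 (V d) → ℝ) (n : ℕ) : T τ (nv hd n) ≠ ⊤ := by
  have h : T τ (nv hd n) ≤ cost τ 0 (List.replicate n (⟨0, hd⟩, true)) :=
    iInf₂_le _ (by rw [endpt_replicate, zero_add])
  exact ne_top_of_le_ne_top (cost_ne_top τ _ _) h

lemma mem_cluster (hd : 0 < d) (τ : Sym2 (V d) → ℝ) (n : ℕ) (t : ℝ) :
    (n : ℝ) • e1 hd ∈ cluster τ t ↔ T τ (nv hd n) ≤ ENNReal.ofReal t := by
  have hcoord : ∀ i, ((n : ℝ) • e1 hd) i = ((nv hd n i : ℤ) : ℝ) := by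
    intro i
    simp only [e1, nv, PiLp.smul_apply, PiLp.single_apply, smul_eq_mul, Pi.single_apply]
    split_ifs <;> simp
  constructor
  · rintro ⟨v, hv, hi⟩
    have : v = nv hd n := by
      funext i
      have h1 := hi i
      rw [hcoord i] at h1
      have h2 : |((nv hd n i - v i : ℤ) : ℝ)| < 1 := by
        push_cast
        linarith
      rw [← Int.cast_abs] at h2
      have h3 : |nv hd n i - v i| < 1 := by exact_mod_cast h2
      have := Int.abs_lt_one_iff.1 h3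
      omega
    rwa [← this]
  · intro h
    refine ⟨nv hd n, h, fun i => ?_⟩
    rw [hcoord i]
    simp

/-- If the event holds for one environment then `T(0, n e₁) - a n^{1-α} → 0`. -/
lemma tendsto_of_event (hd : 0 < d) {μ : Seminorm ℝ (E d)} {α : ℝ} {f₀ : E d → ℝ}
    (hμ : IsNorm μ) (hf : Angular f₀) (hα0 : 0 ≤ α) (hα1 : α < 1) {χ t₀ : ℝ} (hχ : 1 < χ)
    (τ : Sym2 (V d) → ℝ)
    (hev : ∀ t ≥ t₀, ((1 - t ^ (-χ)) * t ^ (1 / (1 - α))) • ballD μ (weight α f₀) ⊆ cluster τ t ∧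
      cluster τ t ⊆ ((1 + t ^ (-χ)) * t ^ (1 / (1 - α))) • ballD μ (weight α f₀)) :
    Tendsto (fun n : ℕ => (T τ (nv hd n)).toReal -
      (n : ℝ) ^ (1 - α) * (D μ (weight α f₀) 0 (e1 hd)).toReal) atTop (𝓝 0) := by
  have hβ : 0 < 1 - α := by linarith
  have hβ1 : 1 - α ≤ 1 := by linarith
  set a' := D μ (weight α f₀) 0 (e1 hd) with ha'
  -- upper inclusion
  have hup : ∀ (n : ℕ) (t : ℝ), 1 ≤ n → t₀ ≤ t → 0 < t → T τ (nv hd n) ≤ ENNReal.ofReal t →
      ENNReal.ofReal ((n : ℝ) ^ (1 - α)) * a' ≤ ENNReal.ofReal (t + t ^ (1 - χ)) := by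
    intro n t hn ht ht0 hT
    have hn0 : (0 : ℝ) < n := by exact_mod_cast hn
    obtain ⟨z, hz, hzr⟩ := (hev t ht).2 ((mem_cluster hd τ n t).2 hT)
    have hr : 0 < (1 + t ^ (-χ)) * t ^ (1 / (1 - α)) := by positivity
    have h1 : ENNReal.ofReal ((n : ℝ) ^ (1 - α)) * a' ≤
        ENNReal.ofReal (((1 + t ^ (-χ)) * t ^ (1 / (1 - α))) ^ (1 - α)) := by
      rw [ha', ← D_smul hn0]
      have hzr' : ((1 + t ^ (-χ)) * t ^ (1 / (1 - α))) • z = (n : ℝ) • e1 hd := hzr
      rw [← hzr', D_smul hr]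
      calc _ ≤ ENNReal.ofReal (((1 + t ^ (-χ)) * t ^ (1 / (1 - α))) ^ (1 - α)) * 1 := by
            gcongr
            exact hz
        _ = _ := mul_one _
    refine h1.trans (ENNReal.ofReal_le_ofReal ?_)
    rw [Real.mul_rpow (by positivity) (by positivity), ← Real.rpow_mul ht0.le,
      one_div_mul_cancel hβ.ne', Real.rpow_one]
    have h2 : (1 + t ^ (-χ)) ^ (1 - α) ≤ 1 + t ^ (-χ) := by
      have h3 : (1 : ℝ) ≤ 1 + t ^ (-χ) := by
        have : 0 < t ^ (-χ) := by positivity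
        linarith
      calc (1 + t ^ (-χ)) ^ (1 - α) ≤ (1 + t ^ (-χ)) ^ (1 : ℝ) :=
            Real.rpow_le_rpow_of_exponent_le h3 hβ1
        _ = _ := Real.rpow_one _
    calc (1 + t ^ (-χ)) ^ (1 - α) * t ≤ (1 + t ^ (-χ)) * t := by gcongr
      _ = t + t ^ (1 - χ) := by
        rw [show (1 : ℝ) - χ = 1 + (-χ) by ring, Real.rpow_add ht0, Real.rpow_one]
        ring
  -- lower inclusion
  have hlow : ∀ (n : ℕ) (t : ℝ), 1 ≤ n → t₀ ≤ t → 1 < t → ENNReal.ofReal t < T τ (nv hd n) →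
      ENNReal.ofReal (t - t ^ (1 - χ)) ≤ ENNReal.ofReal ((n : ℝ) ^ (1 - α)) * a' := by
    intro n t hn ht ht1 hT
    have ht0 : 0 < t := by linarith
    have hn0 : (0 : ℝ) < n := by exact_mod_cast hn
    have htχ : t ^ (-χ) < 1 := Real.rpow_lt_one_of_one_lt_of_neg ht1 (by linarith)
    have htχ0 : 0 < t ^ (-χ) := Real.rpow_pos_of_pos ht0 _
    have hr : 0 < (1 - t ^ (-χ)) * t ^ (1 / (1 - α)) :=
      mul_pos (by linarith) (Real.rpow_pos_of_pos ht0 _)
    set r := (1 - t ^ (-χ)) * t ^ (1 / (1 - α)) with hrdef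
    have hnot : (n : ℝ) • e1 hd ∉ cluster τ t := fun h =>
      absurd ((mem_cluster hd τ n t).1 h) (not_le.2 hT)
    have h1 : 1 < D μ (weight α f₀) 0 (r⁻¹ • (n : ℝ) • e1 hd) := by
      by_contra hcon
      apply hnot
      apply (hev t ht).1
      refine ⟨r⁻¹ • (n : ℝ) • e1 hd, not_lt.1 hcon, ?_⟩
      change r • r⁻¹ • (n : ℝ) • e1 hd = _
      rw [smul_smul, mul_inv_cancel₀ hr.ne', one_smul]
    have h2 : ENNReal.ofReal (r ^ (1 - α)) ≤ ENNReal.ofReal ((n : ℝ) ^ (1 - α)) * a' := by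
      rw [ha', ← D_smul hn0]
      have h3 : (n : ℝ) • e1 hd = r • r⁻¹ • (n : ℝ) • e1 hd := by
        rw [smul_smul r, mul_inv_cancel₀ hr.ne', one_smul]
      rw [h3, D_smul hr]
      calc _ = ENNReal.ofReal (r ^ (1 - α)) * 1 := (mul_one _).symm
        _ ≤ _ := by gcongr
    refine (ENNReal.ofReal_le_ofReal ?_).trans h2
    rw [hrdef, Real.mul_rpow (by linarith) (by positivity), ← Real.rpow_mul ht0.le,
      one_div_mul_cancel hβ.ne', Real.rpow_one]
    have h3 : 1 - t ^ (-χ) ≤ (1 - t ^ (-χ)) ^ (1 - α) := by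
      calc 1 - t ^ (-χ) = (1 - t ^ (-χ)) ^ (1 : ℝ) := (Real.rpow_one _).symm
        _ ≤ _ := Real.rpow_le_rpow_of_exponent_ge (by linarith) (by linarith) hβ1
    calc t - t ^ (1 - χ) = (1 - t ^ (-χ)) * t := by
          rw [show (1 : ℝ) - χ = 1 + (-χ) by ring, Real.rpow_add ht0, Real.rpow_one]
          ring
      _ ≤ _ := by gcongr
  -- `a'` is finite and positive
  have hfin : a' ≠ ⊤ := by
    intro htop
    set t := max (max t₀ 1) (T τ (nv hd 1)).toReal with ht
    have h1 : T τ (nv hd 1) ≤ ENNReal.ofReal t := by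
      rw [← ENNReal.ofReal_toReal (T_ne_top hd τ 1)]
      exact ENNReal.ofReal_le_ofReal (le_max_right _ _)
    have h2 := hup 1 t le_rfl ((le_max_left _ _).trans (le_max_left _ _))
      (by
        have : (1 : ℝ) ≤ t := (le_max_right _ _).trans (le_max_left _ _)
        linarith) h1
    rw [htop] at h2
    simp at h2
  obtain ⟨c, hc, hcD⟩ := D_lower hμ hf hα0 hα1
  have hpos : 0 < a'.toReal := by
    have h1 := hcD (e1 hd)
    have h2 : ‖e1 hd‖ = 1 := by simp [e1]
    rw [h2, Real.one_rpow, mul_one] at h1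
    have h3 : 0 < a' := (ENNReal.ofReal_pos.2 hc).trans_le h1
    exact ENNReal.toReal_pos h3.ne' hfin
  set a := a'.toReal with ha
  have haa : a' = ENNReal.ofReal a := (ENNReal.ofReal_toReal hfin).symm
  have hup' : ∀ (n : ℕ) (t : ℝ), 1 ≤ n → t₀ ≤ t → 0 < t → T τ (nv hd n) ≤ ENNReal.ofReal t →
      (n : ℝ) ^ (1 - α) * a ≤ t + t ^ (1 - χ) := by
    intro n t hn ht ht0 hT
    have h1 := hup n t hn ht ht0 hT
    rw [haa, ← ENNReal.ofReal_mul (by positivity)] at h1
    exact (ENNReal.ofReal_le_ofReal_iff (by positivity)).1 h1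
  have hlow' : ∀ (n : ℕ) (t : ℝ), 1 ≤ n → t₀ ≤ t → 1 < t → ENNReal.ofReal t < T τ (nv hd n) →
      t - t ^ (1 - χ) ≤ (n : ℝ) ^ (1 - α) * a := by
    intro n t hn ht ht0 hT
    have h1 := hlow n t hn ht ht0 hT
    rw [haa, ← ENNReal.ofReal_mul (by positivity)] at h1
    exact (ENNReal.ofReal_le_ofReal_iff (by positivity)).1 h1
  -- the limit
  rw [Metric.tendsto_atTop]
  intro ε hε
  have hsmall : Tendsto (fun t : ℝ => t ^ (1 - χ)) atTop (𝓝 0) := by
    have := tendsto_rpow_neg_atTop (y := χ - 1) (by linarith)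
    simpa [neg_sub] using this
  obtain ⟨t₁, ht₁⟩ := eventually_atTop.1 (hsmall.eventually_lt_const (show (0 : ℝ) < ε / 2 by
    linarith))
  set t₂ := max (max t₀ 2) t₁ with ht₂
  have ht₂0 : t₀ ≤ t₂ := (le_max_left _ _).trans (le_max_left _ _)
  have ht₂2 : 2 ≤ t₂ := (le_max_right _ _).trans (le_max_left _ _)
  have ht₂1 : t₁ ≤ t₂ := le_max_right _ _
  have hgrow : Tendsto (fun n : ℕ => (n : ℝ) ^ (1 - α) * a) atTop atTop :=
    Tendsto.atTop_mul_const hpos ((tendsto_rpow_atTop hβ).comp tendsto_natCast_atTop_atTop)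
  obtain ⟨N, hN⟩ := eventually_atTop.1 (hgrow.eventually_gt_atTop (t₂ + t₂ ^ (1 - χ)))
  refine ⟨max N 1, fun n hn => ?_⟩
  have hnN : N ≤ n := (le_max_left _ _).trans hn
  have hn1 : 1 ≤ n := (le_max_right _ _).trans hn
  have hbig : ENNReal.ofReal t₂ < T τ (nv hd n) := by
    by_contra hcon
    have := hup' n t₂ hn1 ht₂0 (by linarith) (not_lt.1 hcon)
    have := hN n hnN
    linarith
  set θ := (T τ (nv hd n)).toReal with hθ
  have hTθ : T τ (nv hd n) = ENNReal.ofReal θ := (ENNReal.ofReal_toReal (T_ne_top hd τ n)).symm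
  have hθ2 : t₂ < θ := by
    rw [hTθ] at hbig
    exact (ENNReal.ofReal_lt_ofReal_iff_of_nonneg (by linarith)).1 hbig
  have h1 : (n : ℝ) ^ (1 - α) * a ≤ θ + θ ^ (1 - χ) :=
    hup' n θ hn1 (by linarith) (by linarith) hTθ.le
  have h2 : θ ^ (1 - χ) < ε / 2 := ht₁ θ (by linarith)
  have h3 : θ - ε / 2 ≤ (n : ℝ) ^ (1 - α) * a := by
    apply le_of_forall_lt_imp_le_of_dense
    intro y hy
    rcases le_or_gt (y + ε / 2) t₂ with h4 | h4
    · -- use a point between
      have h5 := hlow' n ((t₂ + θ) / 2) hn1 (by linarith) (by linarith) (by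
        rw [hTθ, ENNReal.ofReal_lt_ofReal_iff_of_nonneg (by linarith)]
        linarith)
      have h6 : ((t₂ + θ) / 2) ^ (1 - χ) < ε / 2 := ht₁ _ (by linarith)
      linarith
    · have h5 := hlow' n (y + ε / 2) hn1 (by linarith) (by linarith) (by
        rw [hTθ, ENNReal.ofReal_lt_ofReal_iff_of_nonneg (by linarith)]
        linarith)
      have h6 : (y + ε / 2) ^ (1 - χ) < ε / 2 := ht₁ _ (by linarith)
      linarith
  rw [Real.dist_eq, sub_zero, abs_lt]
  constructor <;> linarith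

end det

/-! ### Decomposition at the origin -/

section dec

variable {d : ℕ}

/-- the path which starts at `x` and makes the given steps avoids the origin -/
def Avoid : V d → List (Fin d × Bool) → Prop
  | x, [] => x ≠ 0
  | x, σ :: l => x ≠ 0 ∧ Avoid (x + stp σ) l

lemma Avoid.ne {x : V d} {l : List (Fin d × Bool)} (h : Avoid x l) : x ≠ 0 := by
  cases l with
  | nil => exact h
  | cons σ l => exact h.1

/-- passage time from `±e_i` to `v` avoiding the origin -/
noncomputable def R (τ : Sym2 (V d) → ℝ) (σ : Fin d × Bool) (v : V d) : ℝ≥0∞ :=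
  ⨅ (l : List (Fin d × Bool)) (_ : endpt (stp σ) l = v ∧ Avoid (stp σ) l), cost τ (stp σ) l

lemma T_le (τ : Sym2 (V d) → ℝ) (σ : Fin d × Bool) (v : V d) :
    T τ v ≤ ENNReal.ofReal (τ s(0, stp σ)) + R τ σ v := by
  unfold R
  rw [ENNReal.add_iInf]
  refine le_iInf fun l => ?_
  by_cases h : endpt (stp σ) l = v ∧ Avoid (stp σ) l
  · simp only [h, and_self, iInf_pos]
    have h1 : T τ v ≤ cost τ 0 (σ :: l) := iInf₂_le _ (by simp only [endpt, zero_add]; exact h.1)
    simpa only [cost, zero_add] using h1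
  · rw [iInf_neg h]
    simp

lemma exists_tail (τ : Sym2 (V d) → ℝ) {v : V d} (hv : v ≠ 0) :
    ∀ (l : List (Fin d × Bool)) (x : V d), endpt x l = v →
      Avoid x l ∨ ∃ σ l', Avoid (stp σ) l' ∧ endpt (stp σ) l' = v ∧
        ENNReal.ofReal (τ s(0, stp σ)) + cost τ (stp σ) l' ≤ cost τ x l
  | [], x, h => by
    left
    simp only [endpt] at h
    simp only [Avoid, h]
    exact hv
  | σ :: l, x, h => by
    simp only [endpt] at h
    rcases exists_tail τ hv l (x + stp σ) h with h1 | ⟨σ', l', h1, h2, h3⟩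
    · by_cases hx : x = 0
      · right
        subst hx
        rw [zero_add] at h h1
        exact ⟨σ, l, h1, h, by simp only [cost, zero_add]; exact le_rfl⟩
      · left
        exact ⟨hx, h1⟩
    · right
      refine ⟨σ', l', h1, h2, h3.trans ?_⟩
      simp only [cost]
      exact le_add_left le_rfl

lemma T_eq (hd : 0 < d) (τ : Sym2 (V d) → ℝ) {v : V d} (hv : v ≠ 0) :
    ∃ σ, T τ v = ENNReal.ofReal (τ s(0, stp σ)) + R τ σ v := by
  have : Nonempty (Fin d × Bool) := ⟨(⟨0, hd⟩, true)⟩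
  obtain ⟨σ, hσ⟩ := exists_eq_ciInf_of_finite
    (f := fun σ : Fin d × Bool => ENNReal.ofReal (τ s(0, stp σ)) + R τ σ v)
  refine ⟨σ, le_antisymm (T_le τ σ v) ?_⟩
  rw [hσ]
  unfold T
  refine le_iInf₂ fun l hl => ?_
  rcases exists_tail τ hv l 0 hl with h1 | ⟨σ', l', h1, h2, h3⟩
  · exact absurd rfl h1.ne
  · refine (iInf_le _ σ').trans (le_trans ?_ h3)
    gcongr
    exact iInf₂_le l' ⟨h2, h1⟩

/-- the centred passage times avoiding the origin -/
noncomputable def hh (c : ℕ → ℝ) (hd : 0 < d) (τ : Sym2 (V d) → ℝ) (σ : Fin d × Bool) (n : ℕ) :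
    EReal := ((R τ σ (nv hd n) : ℝ≥0∞) : EReal) + ((-(c n) : ℝ) : EReal)

lemma nv_ne (hd : 0 < d) {n : ℕ} (hn : 1 ≤ n) : nv hd n ≠ 0 := by
  intro h
  have := congrFun h ⟨0, hd⟩
  simp only [nv, Pi.single_eq_same, Pi.zero_apply] at this
  omega

/-- On the event, one of the edges at the origin is a function of the edges away from it. -/
lemma exists_edge (hd : 0 < d) (c : ℕ → ℝ) (τ : Sym2 (V d) → ℝ)
    (h : Tendsto (fun n : ℕ => (T τ (nv hd n)).toReal - c n) atTop (𝓝 0)) :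
    ∃ σ : Fin d × Bool, liminf (hh c hd τ σ) atTop =
      ((-(max (τ s(0, stp σ)) 0) : ℝ) : EReal) := by
  have hfreq : ∃ σ : Fin d × Bool, ∃ᶠ n in atTop,
      T τ (nv hd n) = ENNReal.ofReal (τ s(0, stp σ)) + R τ σ (nv hd n) := by
    by_contra hcon
    push Not at hcon
    have h1 : ∀ σ : Fin d × Bool, ∀ᶠ n in atTop,
        ¬ T τ (nv hd n) = ENNReal.ofReal (τ s(0, stp σ)) + R τ σ (nv hd n) :=
      fun σ => by simpa using hcon σ
    rw [← eventually_all] at h1
    obtain ⟨N, hN⟩ := eventually_atTop.1 (h1.and (eventually_ge_atTop 1))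
    obtain ⟨h2, h3⟩ := hN N le_rfl
    obtain ⟨σ, hσ⟩ := T_eq hd τ (nv_ne hd h3)
    exact h2 σ hσ
  obtain ⟨σ, hσ⟩ := hfreq
  refine ⟨σ, ?_⟩
  set x : ℝ := max (τ s(0, stp σ)) 0 with hx
  have hofx : ENNReal.ofReal (τ s(0, stp σ)) = ENNReal.ofReal x := by
    rw [hx]
    rcases le_total (τ s(0, stp σ)) 0 with h0 | h0
    · rw [max_eq_right h0, ENNReal.ofReal_zero, ENNReal.ofReal_of_nonpos h0]
    · rw [max_eq_left h0]
  have hx0 : 0 ≤ x := le_max_right _ _
  set g : ℕ → ℝ := fun n => (T τ (nv hd n)).toReal - c n with hg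
  -- comparison
  have hle : ∀ n, ((g n - x : ℝ) : EReal) ≤ hh c hd τ σ n := by
    intro n
    have h1 := T_le τ σ (nv hd n)
    have h2 := T_ne_top hd τ n
    unfold hh
    rw [hofx] at h1
    rcases eq_or_ne (R τ σ (nv hd n)) ⊤ with h3 | h3
    · rw [h3]
      simp
    · have h4 : (T τ (nv hd n)).toReal ≤ x + (R τ σ (nv hd n)).toReal := by
        have := ENNReal.toReal_mono (ENNReal.add_ne_top.2 ⟨ENNReal.ofReal_ne_top, h3⟩) h1
        rwa [ENNReal.toReal_add ENNReal.ofReal_ne_top h3, ENNReal.toReal_ofReal hx0] at this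
      have h5 : ((R τ σ (nv hd n) : ℝ≥0∞) : EReal) = (((R τ σ (nv hd n)).toReal : ℝ) : EReal) := by
        rw [EReal.coe_ennreal_toReal h3]
      rw [h5, ← EReal.coe_add, EReal.coe_le_coe_iff]
      simp only [hg]
      linarith
  have hfr : ∃ᶠ n in atTop, hh c hd τ σ n = ((g n - x : ℝ) : EReal) := by
    refine hσ.mono fun n hn => ?_
    have h2 := T_ne_top hd τ n
    unfold hh
    rw [hofx] at hn
    have h3 : R τ σ (nv hd n) ≠ ⊤ := by
      intro h3
      rw [h3, add_top] at hn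
      exact h2 hn
    have h4 : (T τ (nv hd n)).toReal = x + (R τ σ (nv hd n)).toReal := by
      rw [hn, ENNReal.toReal_add ENNReal.ofReal_ne_top h3, ENNReal.toReal_ofReal hx0]
    have h5 : ((R τ σ (nv hd n) : ℝ≥0∞) : EReal) = (((R τ σ (nv hd n)).toReal : ℝ) : EReal) := by
      rw [EReal.coe_ennreal_toReal h3]
    rw [h5, ← EReal.coe_add, EReal.coe_eq_coe_iff]
    simp only [hg]
    linarith
  have hgx : Tendsto (fun n => g n - x) atTop (𝓝 (-x)) := by
    have := h.sub_const x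
    simpa using this
  apply le_antisymm
  · rw [← EReal.le_of_forall_lt_iff_le]
    intro z hz
    have hz' : -x < z := by exact_mod_cast hz
    have hev := hgx.eventually_lt_const hz'
    refine liminf_le_of_frequently_le ?_ isBounded_ge_of_bot
    refine (hfr.and_eventually hev).mono ?_
    rintro n ⟨h1, h2⟩
    rw [h1]
    exact_mod_cast h2.le
  · rw [← EReal.ge_of_forall_gt_iff_ge]
    intro z hz
    have hz' : z < -x := by exact_mod_cast hz
    have hev := hgx.eventually_const_lt hz'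
    apply le_liminf_of_le
    · isBoundedDefault
    · filter_upwards [hev] with n hn
      refine le_trans ?_ (hle n)
      exact_mod_cast hn.le

end dec

/-! ### Probabilistic part -/

section prob

variable {d : ℕ} {Ω : Type} [mΩ : MeasurableSpace Ω] {P : Measure Ω} {f : E d → ℝ}
  {X : Sym2 (V d) → Ω → ℝ}

lemma isEdge_zero (σ : Fin d × Bool) : IsEdge s((0 : V d), stp σ) := ⟨0, σ, by rw [zero_add]⟩

/-- the σ-algebra of all edges but `e₀` -/
@[instance_reducible]
def mrest (X : Sym2 (V d) → Ω → ℝ) (e₀ : {e : Sym2 (V d) // IsEdge e}) : MeasurableSpace Ω :=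
  ⨆ e ∈ ({e₀}ᶜ : Set {e : Sym2 (V d) // IsEdge e}),
    MeasurableSpace.comap (X e) (inferInstance : MeasurableSpace ℝ)

omit mΩ in
lemma X_meas_rest {e₀ : {e : Sym2 (V d) // IsEdge e}} {e : Sym2 (V d)} (he : IsEdge e)
    (hne : e ≠ e₀) : Measurable[mrest X e₀] (X e) := by
  have h1 : MeasurableSpace.comap (X e) (inferInstance : MeasurableSpace ℝ) ≤ mrest X e₀ :=
    le_iSup₂_of_le (f := fun (e : {e : Sym2 (V d) // IsEdge e}) (_ : e ∈ ({e₀}ᶜ : Set _)) =>
      MeasurableSpace.comap (X e) (inferInstance : MeasurableSpace ℝ)) ⟨e, he⟩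
      (fun h => hne (congrArg Subtype.val (Set.mem_singleton_iff.1 h))) le_rfl
  exact (comap_measurable (X e)).mono h1 le_rfl

omit mΩ in
lemma cost_meas (σ₀ : Fin d × Bool) : ∀ (l : List (Fin d × Bool)) (x : V d), Avoid x l →
    Measurable[mrest X ⟨s(0, stp σ₀), isEdge_zero σ₀⟩] (fun ω => cost (fun e => X e ω) x l)
  | [], x, _ => by
    simp only [cost]
    exact measurable_const
  | σ :: l, x, h => by
    simp only [cost]
    have h1 := cost_meas σ₀ l (x + stp σ) h.2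
    have h2 : Measurable[mrest X ⟨s(0, stp σ₀), isEdge_zero σ₀⟩] (X s(x, x + stp σ)) := by
      apply X_meas_rest ⟨x, σ, rfl⟩
      intro h3
      rcases Sym2.eq_iff.1 h3 with ⟨h4, -⟩ | ⟨-, h4⟩
      · exact h.1 h4
      · exact h.2.ne h4
    exact (ENNReal.measurable_ofReal.comp h2).add h1

omit mΩ in
lemma R_meas (σ : Fin d × Bool) (v : V d) :
    Measurable[mrest X ⟨s(0, stp σ), isEdge_zero σ⟩] (fun ω => R (fun e => X e ω) σ v) := by
  unfold R
  refine Measurable.iInf fun l => Measurable.iInf fun h => ?_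
  exact cost_meas σ l _ h.2

omit mΩ in
lemma hh_meas (c : ℕ → ℝ) (hd : 0 < d) (σ : Fin d × Bool) (n : ℕ) :
    Measurable[mrest X ⟨s(0, stp σ), isEdge_zero σ⟩] (fun ω => hh c hd (fun e => X e ω) σ n) := by
  unfold hh
  have h1 : Measurable (fun x : ℝ≥0∞ => (x : EReal) + ((-(c n) : ℝ) : EReal)) := by
    apply Monotone.measurable
    intro x y hxy
    exact add_le_add (EReal.coe_ennreal_le_coe_ennreal_iff.2 hxy) le_rfl
  exact h1.comp (R_meas σ _)

lemma null_edge [IsProbabilityMeasure P] (hX : IsEnv P f X) (e₀ : {e : Sym2 (V d) // IsEdge e})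
    {z : Ω → EReal} (hz : Measurable[mrest X e₀] z) :
    P {ω | z ω = ((-(X e₀ ω) : ℝ) : EReal)} = 0 := by
  have hle : ∀ e : {e : Sym2 (V d) // IsEdge e},
      MeasurableSpace.comap (X e) (inferInstance : MeasurableSpace ℝ) ≤ mΩ :=
    fun e => (hX.meas e).comap_le
  have hind := indep_iSup_of_disjoint hle ((iIndepFun_iff_iIndep _ _ _).1 hX.indep)
    (S := {e₀}) (T := {e₀}ᶜ) disjoint_compl_right
  have hrest : mrest X e₀ ≤ mΩ := iSup₂_le fun e _ => hle e
  have hzm : Measurable z := hz.mono hrest le_rfl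
  have hindf : IndepFun (X e₀) z P := by
    rw [IndepFun_iff_Indep]
    refine indep_of_indep_of_le_left (indep_of_indep_of_le_right hind ?_) ?_
    · exact hz.comap_le
    · exact le_iSup₂_of_le (f := fun (e : {e : Sym2 (V d) // IsEdge e})
        (_ : e ∈ ({e₀} : Set {e : Sym2 (V d) // IsEdge e})) =>
        MeasurableSpace.comap (X e) (inferInstance : MeasurableSpace ℝ)) e₀ rfl le_rfl
  have hmap := (indepFun_iff_map_prod_eq_prod_map_map (hX.meas e₀).aemeasurable
    hzm.aemeasurable).1 hindf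
  have hset : MeasurableSet {p : ℝ × EReal | p.2 = ((-(p.1) : ℝ) : EReal)} :=
    measurableSet_eq_fun measurable_snd (measurable_coe_real_ereal.comp measurable_fst.neg)
  have h1 : P {ω | z ω = ((-(X e₀ ω) : ℝ) : EReal)} =
      P.map (fun ω => (X e₀ ω, z ω)) {p : ℝ × EReal | p.2 = ((-(p.1) : ℝ) : EReal)} := by
    rw [Measure.map_apply ((hX.meas e₀).prodMk hzm) hset]
    rfl
  have : IsProbabilityMeasure (P.map (X e₀)) :=
    Measure.isProbabilityMeasure_map (hX.meas e₀).aemeasurable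
  have : IsProbabilityMeasure (P.map z) := Measure.isProbabilityMeasure_map hzm.aemeasurable
  rw [h1, hmap, Measure.prod_apply_symm hset]
  rw [lintegral_eq_zero_iff' (by
    exact (measurable_measure_prodMk_right hset).aemeasurable)]
  refine Filter.Eventually.of_forall fun y => ?_
  rw [hX.law e₀ e₀.2]
  have hsub : ((fun x : ℝ => (x, y)) ⁻¹' {p : ℝ × EReal | p.2 = ((-(p.1) : ℝ) : EReal)}).Subsingleton := by
    intro a ha b hb
    have ha' : y = ((-a : ℝ) : EReal) := ha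
    have hb' : y = ((-b : ℝ) : EReal) := hb
    rw [ha'] at hb'
    have := EReal.coe_eq_coe_iff.1 hb'
    linarith
  unfold expMeasure gammaMeasure
  exact withDensity_absolutelyContinuous _ _ (hsub.measure_zero volume)

lemma null_nonpos (hX : IsEnv P f X) {e₀ : Sym2 (V d)} (he : IsEdge e₀) :
    P {ω | X e₀ ω ≤ 0} = 0 := by
  have h1 : P {ω | X e₀ ω ≤ 0} = P.map (X e₀) (Set.Iic 0) := by
    rw [Measure.map_apply (hX.meas e₀) measurableSet_Iic]
    rfl
  rw [h1, hX.law e₀ he]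
  unfold expMeasure gammaMeasure
  rw [withDensity_apply _ measurableSet_Iic]
  have h2 : ∫⁻ a in Set.Iic (0 : ℝ), gammaPDF 1 (f (mid e₀)) a =
      ∫⁻ a in Set.Iio (0 : ℝ), gammaPDF 1 (f (mid e₀)) a :=
    setLIntegral_congr Iio_ae_eq_Iic.symm
  rw [h2]
  exact lintegral_gammaPDF_of_nonpos le_rfl

/-- The event has probability zero. -/
theorem null_event [IsProbabilityMeasure P] (hd : 0 < d) {μ : Seminorm ℝ (E d)} {α : ℝ}
    {f₀ : E d → ℝ} (hμ : IsNorm μ) (hf : Angular f₀) (hα0 : 0 ≤ α) (hα1 : α < 1)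
    (hX : IsEnv P (weight α f₀) X) {χ : ℝ} (hχ : 1 < χ) (t₀ : ℝ) :
    P (Ev X α (ballD μ (weight α f₀)) χ t₀) = 0 := by
  set c : ℕ → ℝ := fun n => (n : ℝ) ^ (1 - α) * (D μ (weight α f₀) 0 (e1 hd)).toReal with hc
  have hsub : Ev X α (ballD μ (weight α f₀)) χ t₀ ⊆
      ⋃ σ : Fin d × Bool, ({ω | liminf (hh c hd (fun e => X e ω) σ) atTop =
        ((-(X s(0, stp σ) ω) : ℝ) : EReal)} ∪ {ω | X s(0, stp σ) ω ≤ 0}) := by
    intro ω hω
    have h1 := tendsto_of_event hd hμ hf hα0 hα1 hχ (fun e => X e ω) hω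
    obtain ⟨σ, hσ⟩ := exists_edge hd c (fun e => X e ω) h1
    rw [Set.mem_iUnion]
    refine ⟨σ, ?_⟩
    by_cases h2 : X s(0, stp σ) ω ≤ 0
    · exact Or.inr h2
    · left
      rw [max_eq_left (not_le.1 h2).le] at hσ
      exact hσ
  refine measure_mono_null hsub (measure_iUnion_null fun σ => measure_union_null ?_ ?_)
  · exact null_edge hX ⟨s(0, stp σ), isEdge_zero σ⟩
      (Measurable.liminf fun n => hh_meas c hd σ n)
  · exact null_nonpos hX (isEdge_zero σ)

end prob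

/-! ### Existence of the environment -/

lemma mid_ne_zero {d : ℕ} {e : Sym2 (V d)} (he : IsEdge e) : mid e ≠ 0 := by
  obtain ⟨x, σ, rfl⟩ := he
  intro h
  have h1 : (1 / 2 : ℝ) • (toE x + toE (x + stp σ)) = 0 := h
  have h2 := congrArg (fun z : E d => z σ.1) h1
  have h3 : (2 : ℝ)⁻¹ * (x σ.1 : ℝ) + 2⁻¹ * ((x σ.1 : ℝ) + (stp σ σ.1 : ℝ)) = 0 := by
    simpa [toE] using h2
  have h4 : stp σ σ.1 = 1 ∨ stp σ σ.1 = -1 := by
    unfold stp
    split_ifs
    · left; simp
    · right; simp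
  have h5 : ((x σ.1 + (x σ.1 + stp σ σ.1) : ℤ) : ℝ) = 0 := by
    push_cast at h3 ⊢
    linarith
  have h6 : x σ.1 + (x σ.1 + stp σ σ.1) = 0 := by exact_mod_cast h5
  rcases h4 with h | h <;> rw [h] at h6 <;> omega

lemma weight_pos {d : ℕ} {α : ℝ} {f₀ : E d → ℝ} (hf : Angular f₀) {z : E d} (hz : z ≠ 0) :
    0 < weight α f₀ z := by
  have h0 : 0 < ‖z‖ := norm_pos_iff.2 hz
  refine mul_pos (Real.rpow_pos_of_pos h0 _) (hf.2 _ ?_)
  rw [norm_smul, norm_inv, norm_norm, inv_mul_cancel₀ h0.ne']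

lemma exists_env {d : ℕ} {α : ℝ} {f₀ : E d → ℝ} (hf : Angular f₀) :
    ∃ (Ω : Type) (_ : MeasurableSpace Ω) (P : Measure Ω) (_ : IsProbabilityMeasure P)
      (X : Sym2 (V d) → Ω → ℝ), IsEnv P (weight α f₀) X := by
  classical
  set ν : Sym2 (V d) → Measure ℝ := fun e =>
    if IsEdge e then expMeasure (weight α f₀ (mid e)) else Measure.dirac 0 with hν
  have hp : ∀ e, IsProbabilityMeasure (ν e) := by
    intro e
    by_cases he : IsEdge e
    · simp only [hν, if_pos he]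
      exact isProbabilityMeasure_expMeasure (weight_pos hf (mid_ne_zero he))
    · simp only [hν, if_neg he]
      infer_instance
  refine ⟨Sym2 (V d) → ℝ, inferInstance, Measure.infinitePi ν, inferInstance,
    fun e ω => ω e, ?_, ?_, ?_⟩
  · exact fun e => measurable_pi_apply e
  · have h1 : iIndepFun (fun (e : Sym2 (V d)) (ω : Sym2 (V d) → ℝ) => ω e)
        (Measure.infinitePi ν) := iIndepFun_infinitePi (X := fun _ => id) fun _ => measurable_id
    exact h1.precomp Subtype.val_injective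
  · intro e he
    have h1 := Measure.infinitePi_map_eval ν e
    have h2 : ν e = expMeasure (weight α f₀ (mid e)) := by simp only [hν, if_pos he]
    rw [← h2, ← h1]

/-- **Q1 fails in every dimension.**  For `0 ≤ α < 1`, every angular function, every norm `μ` (in
particular the one of the limit shape `𝔸`) and every `χ > 1` the event `E(χ,t₀)` has probability
zero for every `t₀`, so rate `χ` does not hold; for `3/5 < α < 1` such `χ` exist in the interval
`(0, 2/(5(1-α)))`. -/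
theorem result (d : ℕ) (hd : 1 ≤ d) (α : ℝ) (hα0 : 0 ≤ α) (hα1 : α < 1) (f₀ : E d → ℝ)
    (hf : Angular f₀) (μ : Seminorm ℝ (E d)) (hμ : IsNorm μ) :
    (∃ (Ω : Type) (_ : MeasurableSpace Ω) (P : Measure Ω) (_ : IsProbabilityMeasure P)
      (X : Sym2 (V d) → Ω → ℝ), IsEnv P (weight α f₀) X) ∧
    (∀ (Ω : Type) [MeasurableSpace Ω] (P : Measure Ω) [IsProbabilityMeasure P]
      (X : Sym2 (V d) → Ω → ℝ), IsEnv P (weight α f₀) X → ∀ χ : ℝ, 1 < χ →
      (∀ t₀ : ℝ, P (Ev X α (ballD μ (weight α f₀)) χ t₀) = 0) ∧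
      ¬ RateHolds P X α (ballD μ (weight α f₀)) χ) ∧
    (3 / 5 < α → 1 < 2 / (5 * (1 - α))) := by
  refine ⟨exists_env hf, ?_, ?_⟩
  · intro Ω _ P _ X hX χ hχ
    have h0 : ∀ t₀ : ℝ, P (Ev X α (ballD μ (weight α f₀)) χ t₀) = 0 :=
      fun t₀ => null_event hd hμ hf hα0 hα1 hX hχ t₀
    refine ⟨h0, fun hR => ?_⟩
    have h1 := hR 1 one_pos
    have h2 : (fun t₀ : ℝ => t₀ ^ (1 : ℝ) *
        (1 - P.real (Ev X α (ballD μ (weight α f₀)) χ t₀))) = fun t₀ => t₀ := by
      funext t₀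
      rw [Measure.real, h0 t₀]
      simp
    rw [h2] at h1
    exact not_tendsto_nhds_of_tendsto_atTop tendsto_id 0 h1
  · intro h
    rw [lt_div_iff₀ (by linarith)]
    linarith

end Pool.Agent.Results.MP_d9d0cb_pr.RateAboveOne
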